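import Pool.Agent.TH705.SM.Torus

set_option autoImplicit false

/-!
# Full crossing curves for the standard map
-/

namespace Pool.Agent.Y332.SM

open Real MeasureTheory Function Set Filter Topology
open Pool.Agent.TH705.SM

/-- comparison of increments -/
theorem incr {Y Y' f f' : ℝ → ℝ} {c d K : ℝ} (hcd : c ≤ d)
    (hY : ∀ x, HasDerivAt Y (Y' x) x) (hf : ∀ x, HasDerivAt f (f' x) x)
    (hYc : Continuous Y') (hne : ∀ x ∈ Icc c d, Y' x ≠ 0)
    (hle : ∀ x ∈ Icc c d, |f' x| ≤ K * |Y' x|) : |f d - f c| ≤ K * |Y d - Y c| := by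
  have hsign : (∀ x ∈ Icc c d, 0 < Y' x) ∨ (∀ x ∈ Icc c d, Y' x < 0) := by
    by_contra hcon
    rw [not_or] at hcon
    obtain ⟨h1, h2⟩ := hcon
    push Not at h1 h2
    obtain ⟨x, hx, hx'⟩ := h1
    obtain ⟨y, hy, hy'⟩ := h2
    have h3 := isPreconnected_Icc.intermediate_value (s := Icc c d) hx hy hYc.continuousOn
    obtain ⟨z, hz, hz'⟩ := h3 (show (0:ℝ) ∈ Icc (Y' x) (Y' y) from ⟨hx', hy'⟩)
    exact hne z hz hz'
  have key : ∀ σ : ℝ, (σ = 1 ∨ σ = -1) → (∀ x ∈ Icc c d, |Y' x| = σ * Y' x) →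
      |f d - f c| ≤ K * |Y d - Y c| := by
    intro σ hσ hs
    have hmono : ∀ τ : ℝ, (τ = 1 ∨ τ = -1) →
        K * (σ * Y c) + τ * f c ≤ K * (σ * Y d) + τ * f d := by
      intro τ hτ
      have hd : ∀ x, HasDerivAt (fun x => K * (σ * Y x) + τ * f x)
          (K * (σ * Y' x) + τ * f' x) x := fun x =>
        (((hY x).const_mul σ).const_mul K).add ((hf x).const_mul τ)
      have hm : MonotoneOn (fun x => K * (σ * Y x) + τ * f x) (Icc c d) := by
        apply monotoneOn_of_deriv_nonneg (convex_Icc c d)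
        · exact fun x _ => (hd x).continuousAt.continuousWithinAt
        · exact fun x _ => (hd x).differentiableAt.differentiableWithinAt
        · intro x hx
          rw [interior_Icc] at hx
          have hx' : x ∈ Icc c d := ⟨hx.1.le, hx.2.le⟩
          rw [(hd x).deriv, ← hs x hx']
          have h1 := hle x hx'
          rcases hτ with rfl | rfl
          · have := neg_abs_le (f' x)
            linarith
          · have := le_abs_self (f' x)
            linarith
      exact hm (left_mem_Icc.2 hcd) (right_mem_Icc.2 hcd) hcd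
    have h1 := hmono 1 (Or.inl rfl)
    have h2 := hmono (-1) (Or.inr rfl)
    have h3 : σ * (Y d - Y c) ≤ |Y d - Y c| := by
      rcases hσ with rfl | rfl
      · rw [one_mul]; exact le_abs_self _
      · have := neg_abs_le (Y d - Y c)
        linarith
    have h4 : |f d - f c| ≤ K * (σ * (Y d - Y c)) := by
      rw [abs_le]
      constructor <;> nlinarith
    rcases (abs_nonneg (f d - f c)).lt_or_eq with h5 | h5
    · have hK : 0 ≤ K := by
        have hx := hle c (left_mem_Icc.2 hcd)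
        have h6 : 0 < |Y' c| := abs_pos.2 (hne c (left_mem_Icc.2 hcd))
        by_contra hK
        rw [not_le] at hK
        have := mul_neg_of_neg_of_pos hK h6
        have := abs_nonneg (f' c)
        linarith
      exact h4.trans (mul_le_mul_of_nonneg_left h3 hK)
    · rw [← h5]
      have hK : 0 ≤ K := by
        have hx := hle c (left_mem_Icc.2 hcd)
        have h6 : 0 < |Y' c| := abs_pos.2 (hne c (left_mem_Icc.2 hcd))
        by_contra hK
        rw [not_le] at hK
        have := mul_neg_of_neg_of_pos hK h6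
        have := abs_nonneg (f' c)
        linarith
      positivity
  rcases hsign with h | h
  · exact key 1 (Or.inl rfl) fun x hx => by rw [abs_of_pos (h x hx), one_mul]
  · exact key (-1) (Or.inr rfl) fun x hx => by rw [abs_of_neg (h x hx)]; ring

/-- at the times `1, …, n` the derivative of the first coordinate is at least `b k` -/
def GoodB (a : ℝ) (b : ℕ → ℝ) (s : ℝ) (n : ℕ) (t : ℝ) : Prop :=
  ∀ k, 1 ≤ k → k ≤ n → b k ≤ |L a (X a s k t)|

/-- contraction backwards from time `n + 1` to time `k` -/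
noncomputable def rem (b : ℕ → ℝ) (n k : ℕ) : ℝ := ∏ j ∈ Finset.Ico k (n + 1), (2 / b j)

theorem rem_succ (b : ℕ → ℝ) {n k : ℕ} (hk : k ≤ n) : rem b n k = 2 / b k * rem b n (k + 1) := by
  unfold rem
  rw [Finset.prod_eq_prod_Ico_succ_bot (by omega)]

theorem rem_last (b : ℕ → ℝ) (n : ℕ) : rem b n (n + 1) = 1 := by
  unfold rem
  rw [Finset.Ico_self, Finset.prod_empty]

theorem rem_pos {b : ℕ → ℝ} (hb : ∀ k, 16 ≤ b k) (n k : ℕ) : 0 < rem b n k := by
  unfold rem
  refine Finset.prod_pos fun j _ => ?_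
  have := hb j
  positivity

theorem GoodB.good {a : ℝ} {b : ℕ → ℝ} (hb : ∀ k, 16 ≤ b k) {s t : ℝ} {n : ℕ}
    (hg : GoodB a b s n t) : Good a 16 s n t := fun k h1 h2 => (hb k).trans (hg k h1 h2)

theorem step {a : ℝ} {b : ℕ → ℝ} (hb : ∀ k, 16 ≤ b k) {s t : ℝ} {n : ℕ}
    (hg : GoodB a b s n t) {k : ℕ} (hk : k ≤ n) :
    |D a s k t| ≤ 2 / b k * |D a s (k + 1) t| := by
  have hbk : 0 < b k := by linarith [hb k]
  rcases Nat.eq_zero_or_pos k with h0 | h0
  · rw [h0]
    show |(0:ℝ)| ≤ _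
    rw [abs_zero]
    have := hb 0
    positivity
  · have h1 := (growth le_rfl (hg.good hb) k hk).2.1 h0
    have h2 := hg k h0 hk
    have h3 := abs_nonneg (D a s k t)
    rw [div_mul_eq_mul_div, le_div_iff₀ hbk]
    nlinarith

/-- growth of the derivatives over several steps -/
theorem growth_rem {a : ℝ} {b : ℕ → ℝ} (hb : ∀ k, 16 ≤ b k) {s t : ℝ} {n : ℕ}
    (hg : GoodB a b s n t) (j : ℕ) : ∀ k, k + j = n + 1 →
    |D a s k t| ≤ rem b n k * |D a s (n + 1) t| := by
  induction j with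
  | zero =>
    intro k hk
    rw [add_zero] at hk
    rw [hk, rem_last, one_mul]
  | succ j ih =>
    intro k hk
    have hbk : 0 < b k := by linarith [hb k]
    have h1 := ih (k + 1) (by omega)
    have h2 := step hb hg (show k ≤ n by omega)
    rw [rem_succ b (show k ≤ n by omega)]
    calc |D a s k t| ≤ 2 / b k * |D a s (k + 1) t| := h2
      _ ≤ 2 / b k * (rem b n (k + 1) * |D a s (n + 1) t|) :=
        mul_le_mul_of_nonneg_left h1 (by positivity)
      _ = _ := by ring

theorem D_ne_zero {a : ℝ} {b : ℕ → ℝ} (hb : ∀ k, 16 ≤ b k) {s t : ℝ} {n : ℕ}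
    (hg : GoodB a b s n t) : D a s (n + 1) t ≠ 0 := by
  have h := (growth le_rfl (hg.good hb) n le_rfl).2.2
  intro h0
  rw [h0, abs_zero] at h
  linarith

/-- increments of the earlier coordinates against the last one -/
theorem X_incr {a : ℝ} {b : ℕ → ℝ} (hb : ∀ k, 16 ≤ b k) {s : ℝ} {n : ℕ} {c d : ℝ} (hcd : c ≤ d)
    (hg : ∀ v ∈ Icc c d, GoodB a b s n v) {k : ℕ} (hk : k ≤ n + 1) :
    |X a s k d - X a s k c| ≤ rem b n k * |X a s (n + 1) d - X a s (n + 1) c| := by
  refine incr hcd (fun x => X_hasDeriv a s (n + 1) x) (fun x => X_hasDeriv a s k x)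
    (D_cont a s (n + 1)) (fun x hx => D_ne_zero hb (hg x hx)) fun x hx => ?_
  exact growth_rem hb (hg x hx) (n + 1 - k) k (by omega)

theorem time_incr {a : ℝ} {b : ℕ → ℝ} (hb : ∀ k, 16 ≤ b k) {s : ℝ} {n : ℕ} {c d : ℝ}
    (hcd : c ≤ d) (hg : ∀ v ∈ Icc c d, GoodB a b s n v) :
    |d - c| ≤ rem b n 1 * |X a s (n + 1) d - X a s (n + 1) c| :=
  X_incr hb hcd hg (k := 1) (by omega)

/-- `L` is Lipschitz -/
theorem L_lip (a x y : ℝ) : |L a x - L a y| ≤ 4 * π ^ 2 * |a| * |x - y| := by
  unfold L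
  have h1 : |cos (2 * π * x) - cos (2 * π * y)| ≤ |2 * π * x - 2 * π * y| := by
    rw [cos_sub_cos, abs_mul, abs_mul]
    have h2 := abs_sin_le_one ((2 * π * x + 2 * π * y) / 2)
    have h3 := abs_sin_le_abs (x := (2 * π * x - 2 * π * y) / 2)
    rw [abs_div, abs_of_pos (by norm_num : (0:ℝ) < 2)] at h3
    have e : |(-2:ℝ)| = 2 := by norm_num
    rw [e]
    have h4 := abs_nonneg (sin ((2 * π * x + 2 * π * y) / 2))
    have h5 := abs_nonneg (sin ((2 * π * x - 2 * π * y) / 2))
    nlinarith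
  have h6 : |2 * π * x - 2 * π * y| = 2 * π * |x - y| := by
    rw [← mul_sub, abs_mul, abs_of_pos (by positivity)]
  rw [h6] at h1
  have e : 2 + 2 * π * a * cos (2 * π * x) - (2 + 2 * π * a * cos (2 * π * y)) =
      2 * π * a * (cos (2 * π * x) - cos (2 * π * y)) := by ring
  rw [e, abs_mul, abs_mul, abs_of_pos (by positivity : 0 < 2 * π)]
  calc 2 * π * |a| * |cos (2 * π * x) - cos (2 * π * y)| ≤ 2 * π * |a| * (2 * π * |x - y|) :=
        mul_le_mul_of_nonneg_left h1 (by positivity)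
    _ = _ := by ring

/-- the strong form of `GoodB` -/
def Strong (a : ℝ) (b : ℕ → ℝ) (s : ℝ) (n : ℕ) (t : ℝ) : Prop :=
  ∀ k, 1 ≤ k → k ≤ n → b k + 4 * π ^ 2 * |a| * rem b n k < |L a (X a s k t)|

theorem Strong.good {a : ℝ} {b : ℕ → ℝ} (hb : ∀ k, 16 ≤ b k) {s t : ℝ} {n : ℕ}
    (h : Strong a b s n t) : GoodB a b s n t := by
  intro k h1 h2
  have h3 := h k h1 h2
  have h4 := rem_pos hb n k
  have : 0 ≤ 4 * π ^ 2 * |a| * rem b n k := by positivity
  linarith

theorem good_closed (a : ℝ) (b : ℕ → ℝ) (s : ℝ) (n : ℕ) : IsClosed {t | GoodB a b s n t} := by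
  have h : {t | GoodB a b s n t} = ⋂ k, ⋂ (_ : 1 ≤ k), ⋂ (_ : k ≤ n),
      {t | b k ≤ |L a (X a s k t)|} := by
    ext t
    simp only [Set.mem_ofPred_eq, Set.mem_iInter, GoodB]
  rw [h]
  refine isClosed_iInter fun k => isClosed_iInter fun _ => isClosed_iInter fun _ => ?_
  exact isClosed_le continuous_const ((L_cont a).comp (Xt_cont a s k)).abs

/-- as long as the last coordinate moves by at most one, the orbit stays good -/
theorem stay {a : ℝ} {b : ℕ → ℝ} (hb : ∀ k, 16 ≤ b k) {s t u : ℝ} {n : ℕ}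
    (hs : Strong a b s n t) (htu : t ≤ u)
    (h1 : ∀ v ∈ Icc t u, |X a s (n + 1) v - X a s (n + 1) t| ≤ 1) :
    ∀ v ∈ Icc t u, GoodB a b s n v := by
  set Q : Set ℝ := {v | ∀ w ∈ Icc t v, GoodB a b s n w} with hQ
  have hmain : Icc t u ⊆ Q := by
    apply IsClosed.Icc_subset_of_forall_mem_nhdsWithin
    · -- closedness
      rw [← isSeqClosed_iff_isClosed]
      intro v x hv hx
      have hxI : x ∈ Icc t u := isClosed_Icc.mem_of_tendsto hx
        (Eventually.of_forall fun n => (hv n).2)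
      refine ⟨?_, hxI⟩
      intro w hw
      rcases hw.2.lt_or_eq with h | h
      · obtain ⟨m, hm⟩ := (hx.eventually (lt_mem_nhds h)).exists
        exact (hv m).1 w ⟨hw.1, hm.le⟩
      · rw [h]
        apply (good_closed a b s n).mem_of_tendsto hx
        exact Eventually.of_forall fun m => (hv m).1 (v m) (right_mem_Icc.2 (hv m).2.1)
    · intro w hw
      rw [Icc_self, mem_singleton_iff] at hw
      rw [hw]
      exact hs.good hb
    · intro x hx
      obtain ⟨hxQ, hxI⟩ := hx
      have hxI' : x ∈ Icc t u := ⟨hxI.1, hxI.2.le⟩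
      -- strict inequalities at `x`
      have hstrict : ∀ k, 1 ≤ k → k ≤ n → b k < |L a (X a s k x)| := by
        intro k hk1 hk2
        have h2 := X_incr hb hxI.1 hxQ (k := k) (by omega)
        have h3 := h1 x hxI'
        have h4 := L_lip a (X a s k x) (X a s k t)
        have h5 := hs k hk1 hk2
        have h6 : |X a s k x - X a s k t| ≤ rem b n k := by
          refine h2.trans ?_
          have := rem_pos hb n k
          nlinarith
        have h7 : 4 * π ^ 2 * |a| * |X a s k x - X a s k t| ≤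
            4 * π ^ 2 * |a| * rem b n k :=
          mul_le_mul_of_nonneg_left h6 (by positivity)
        have h8 := abs_sub_abs_le_abs_sub (L a (X a s k t)) (L a (X a s k x))
        rw [abs_sub_comm] at h8
        linarith
      have hev : ∀ᶠ v in 𝓝 x, GoodB a b s n v := by
        have : ∀ k ∈ Finset.Icc 1 n, ∀ᶠ v in 𝓝 x, b k ≤ |L a (X a s k v)| := by
          intro k hk
          rw [Finset.mem_Icc] at hk
          have hc : ContinuousAt (fun v => |L a (X a s k v)|) x :=
            (((L_cont a).comp (Xt_cont a s k)).abs).continuousAt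
          exact (hc.eventually (lt_mem_nhds (hstrict k hk.1 hk.2))).mono fun v hv => hv.le
        have h2 := (Filter.eventually_all_finset (Finset.Icc 1 n)).2 this
        exact h2.mono fun v hv k hk1 hk2 => hv k (Finset.mem_Icc.2 ⟨hk1, hk2⟩)
      obtain ⟨δ, hδ, hball⟩ := Metric.eventually_nhds_iff.1 hev
      have : Ioo x (x + δ) ∈ 𝓝[>] x := Ioo_mem_nhdsGT (by linarith)
      refine Filter.mem_of_superset this fun v hv w hw => ?_
      rcases le_or_gt w x with h | h
      · exact hxQ w ⟨hw.1, h⟩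
      · apply hball
        rw [Real.dist_eq, abs_lt]
        constructor <;> linarith [hw.2, hv.2]
  intro v hv
  exact hmain (right_mem_Icc.2 htu) v hv

/-- the crossing to the right -/
theorem right {a : ℝ} {b : ℕ → ℝ} (hb : ∀ k, 16 ≤ b k) {s t : ℝ} {n : ℕ}
    (hs : Strong a b s n t) :
    ∃ u, t ≤ u ∧ u ≤ t + rem b n 1 ∧ (∀ v ∈ Icc t u, GoodB a b s n v) ∧
      |X a s (n + 1) u - X a s (n + 1) t| = 1 := by
  set r : ℝ := rem b n 1 with hr
  have hr0 : 0 < r := rem_pos hb n 1
  set h : ℝ → ℝ := fun v => |X a s (n + 1) v - X a s (n + 1) t| with hh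
  have hc : Continuous h := ((Xt_cont a s (n + 1)).sub continuous_const).abs
  have h0 : h t = 0 := by simp [hh]
  by_cases hcase : ∃ v ∈ Icc t (t + r), 1 ≤ h v
  · obtain ⟨v, hv, hv1⟩ := hcase
    have hK : IsCompact (Icc t (t + r) ∩ h ⁻¹' (Ici 1)) :=
      isCompact_Icc.inter_right (isClosed_Ici.preimage hc)
    obtain ⟨u, ⟨huI, hu1⟩, hmin⟩ := hK.exists_isLeast ⟨v, hv, hv1⟩
    have hlt : ∀ w ∈ Icc t u, w ≠ u → h w < 1 := by
      intro w hw hne
      by_contra hcon
      rw [not_lt] at hcon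
      have := hmin ⟨⟨hw.1, hw.2.trans huI.2⟩, hcon⟩
      exact hne (le_antisymm hw.2 this)
    have htu : t < u := by
      rcases huI.1.lt_or_eq with h2 | h2
      · exact h2
      · rw [← h2] at hu1
        have : (1:ℝ) ≤ h t := hu1
        rw [h0] at this
        linarith
    have hu2 : h u ≤ 1 := by
      apply le_of_tendsto (f := h) (x := 𝓝[<] u) (hc.continuousAt.tendsto.mono_left
        nhdsWithin_le_nhds)
      have : Ioo t u ∈ 𝓝[<] u := Ioo_mem_nhdsLT htu
      exact Filter.mem_of_superset this fun w hw => (hlt w ⟨hw.1.le, hw.2.le⟩ hw.2.ne).le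
    have hle : ∀ w ∈ Icc t u, |X a s (n + 1) w - X a s (n + 1) t| ≤ 1 := by
      intro w hw
      by_cases hwu : w = u
      · rw [hwu]; exact hu2
      · exact (hlt w hw hwu).le
    exact ⟨u, huI.1, huI.2, stay hb hs huI.1 hle, le_antisymm hu2 hu1⟩
  · push Not at hcase
    exfalso
    have hgood := stay hb hs (by linarith : t ≤ t + r) fun v hv => (hcase v hv).le
    have h1 := time_incr hb (by linarith : t ≤ t + r) hgood
    have h2 := hcase (t + r) (right_mem_Icc.2 (by linarith))
    have e : |t + r - t| = r := by rw [add_sub_cancel_left, abs_of_pos hr0]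
    rw [e, ← hr] at h1
    have h3 : r * h (t + r) < r * 1 := mul_lt_mul_of_pos_left h2 hr0
    have h4 : h (t + r) = |X a s (n + 1) (t + r) - X a s (n + 1) t| := rfl
    rw [← h4] at h1
    linarith

theorem X_neg (a s : ℝ) (k : ℕ) (t : ℝ) : X a (-s) k (-t) = -X a s k t := by
  induction k using Nat.strong_induction_on with
  | _ k ih =>
    match k with
    | 0 => rfl
    | 1 => rfl
    | k + 2 =>
      have h1 := ih (k + 1) (by omega)
      have h0 := ih k (by omega)
      show 2 * X a (-s) (k + 1) (-t) - X a (-s) k (-t) + a * sin (2 * π * X a (-s) (k + 1) (-t)) =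
        -(2 * X a s (k + 1) t - X a s k t + a * sin (2 * π * X a s (k + 1) t))
      rw [h1, h0, mul_neg (2 * π), sin_neg]
      ring

theorem L_neg (a x : ℝ) : L a (-x) = L a x := by
  unfold L
  rw [mul_neg (2 * π), cos_neg]

theorem good_neg {a : ℝ} {b : ℕ → ℝ} {s t : ℝ} {n : ℕ} :
    GoodB a b (-s) n (-t) ↔ GoodB a b s n t := by
  unfold GoodB
  simp only [X_neg, L_neg]

theorem strong_neg {a : ℝ} {b : ℕ → ℝ} {s t : ℝ} {n : ℕ} :
    Strong a b (-s) n (-t) ↔ Strong a b s n t := by
  unfold Strong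
  simp only [X_neg, L_neg]

/-- the crossing to the left -/
theorem left {a : ℝ} {b : ℕ → ℝ} (hb : ∀ k, 16 ≤ b k) {s t : ℝ} {n : ℕ}
    (hs : Strong a b s n t) :
    ∃ u, t - rem b n 1 ≤ u ∧ u ≤ t ∧ (∀ v ∈ Icc u t, GoodB a b s n v) ∧
      |X a s (n + 1) u - X a s (n + 1) t| = 1 := by
  obtain ⟨u, h1, h2, h3, h4⟩ := right hb (strong_neg.2 hs)
  refine ⟨-u, by linarith, by linarith, ?_, ?_⟩
  · intro v hv
    have := h3 (-v) ⟨by linarith [hv.2], by linarith [hv.1]⟩
    exact good_neg.1 this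
  · have e : X a (-s) (n + 1) u = -X a s (n + 1) (-u) := by
      rw [← X_neg, neg_neg]
    rw [e, X_neg] at h4
    rw [← h4, ← abs_neg]
    congr 1
    ring

end Pool.Agent.Y332.SM
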