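import Pool.Agent.Y332.SM.Meas

set_option autoImplicit false

/-!
# Invariant sets and finite-scale mixing
-/

namespace Pool.Agent.Y332.SM

open Real MeasureTheory Function Set Filter Topology
open Pool.Agent.TH705.SM
open scoped ENNReal

theorem vol_swap (A : Set T2) : volume (Prod.swap ⁻¹' A) = volume A := by
  have h : MeasurePreserving (MeasurableEquiv.prodComm : T2 ≃ᵐ T2)
      ((volume : Measure UnitAddCircle).prod volume) ((volume : Measure UnitAddCircle).prod volume) :=
    Measure.measurePreserving_swap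
  exact h.measure_preimage_equiv A

theorem front_swap (A : Set T2) : frontier (Prod.swap ⁻¹' Aᶜ) = Prod.swap ⁻¹' frontier A := by
  have h := (Homeomorph.prodComm UnitAddCircle UnitAddCircle).preimage_frontier Aᶜ
  rw [frontier_compl] at h
  exact h.symm

/-- the horizontal or the vertical neighbourhood of the boundary is large -/
theorem alt {a M : ℝ} (hM : 16 ≤ M) (haM : |a| = M ^ 2) {n : ℕ} (hn : 1 ≤ n) {A : Set T2}
    (hA : S a ⁻¹' A = A) :
    volume A ≤ ENNReal.ofReal (3 * n / |a| + 3.71 / M) +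
      volume (hnbd ((1 / √M) ^ (n + 1) / 5) (frontier A)) ∨
    volume Aᶜ ≤ ENNReal.ofReal (3 * n / |a| + 3.71 / M) +
      volume (hnbd ((1 / √M) ^ (n + 1) / 5) (Prod.swap ⁻¹' frontier A)) := by
  by_cases h1 : HasCurve A
  · right
    have h2 : ¬ HasCurve (Prod.swap ⁻¹' Aᶜ) := by
      intro h2
      obtain ⟨p, hp1, hp2⟩ := meet h1 h2
      exact hp2 hp1
    have h3 := vol_le hM haM hn (swap_inv hA) h2
    rw [vol_swap, front_swap] at h3
    exact h3
  · left
    exact vol_le hM haM hn hA h1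

theorem vol_hnbd_thick (r : ℝ) (F : Set T2) :
    volume (hnbd r F) ≤ volume (Metric.cthickening r F) ∧
    volume (hnbd r (Prod.swap ⁻¹' F)) ≤ volume (Metric.cthickening r F) := by
  constructor
  · exact measure_mono (hnbd_sub r F)
  · rw [← vol_swap (Metric.cthickening r F)]
    apply measure_mono
    rintro p ⟨b, hb, hp⟩
    have hp' : (p.2, p.1 + (b : UnitAddCircle)) ∈ F := hp
    have h1 : dist p.1 (p.1 + (b : UnitAddCircle)) = ‖(b : UnitAddCircle)‖ := by
      rw [dist_eq_norm, sub_add_cancel_left, norm_neg]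
    have h2 : dist (p.2, p.1) (p.2, p.1 + (b : UnitAddCircle)) ≤ r := by
      rw [Prod.dist_eq, dist_self, h1]
      exact max_le ((abs_nonneg b).trans hb) ((norm_coe_le b).trans hb)
    have h3 := Metric.mem_cthickening_of_dist_le (p.2, p.1) (p.2, p.1 + (b : UnitAddCircle)) r F
      hp' h2
    exact h3

theorem haus_swap (F : Set T2) :
    Measure.hausdorffMeasure 1 (Prod.swap ⁻¹' F) ≤ Measure.hausdorffMeasure 1 F := by
  have h1 : LipschitzWith 1 (Prod.swap : T2 → T2) := by
    apply LipschitzWith.of_dist_le_mul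
    intro x y
    rw [Prod.dist_eq, Prod.dist_eq, NNReal.coe_one, one_mul, Prod.fst_swap, Prod.fst_swap,
      Prod.snd_swap, Prod.snd_swap, max_comm]
  have h2 := h1.hausdorffMeasure_image_le zero_le_one F
  rw [Set.image_swap_eq_preimage_swap] at h2
  simpa using h2

/-- the two error terms against the length of the boundary -/
theorem alt_len {a M : ℝ} (hM : 16 ≤ M) (haM : |a| = M ^ 2) {n : ℕ} (hn : 1 ≤ n) {A : Set T2}
    (hA : S a ⁻¹' A = A) {η : ℝ≥0∞} (h1 : η ≤ volume A) (h2 : η ≤ volume Aᶜ) :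
    η ≤ ENNReal.ofReal (3 * n / |a| + 3.71 / M) +
      ENNReal.ofReal (4 * ((1 / √M) ^ (n + 1) / 5)) * Measure.hausdorffMeasure 1 (frontier A) := by
  have hM0 : 0 < M := by linarith
  have hs0 : 0 < √M := Real.sqrt_pos.2 hM0
  have hr : 0 < (1 / √M) ^ (n + 1) / 5 := by positivity
  rcases alt hM haM hn hA with h | h
  · refine h1.trans (h.trans (add_le_add_right (vol_hnbd hr _) _))
  · refine h2.trans (h.trans (add_le_add_right ((vol_hnbd hr _).trans ?_) _))
    exact mul_le_mul_right (haus_swap _) _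

theorem alt_thick {a M : ℝ} (hM : 16 ≤ M) (haM : |a| = M ^ 2) {n : ℕ} (hn : 1 ≤ n) {A : Set T2}
    (hA : S a ⁻¹' A = A) {η : ℝ≥0∞} (h1 : η ≤ volume A) (h2 : η ≤ volume Aᶜ) :
    η ≤ ENNReal.ofReal (3 * n / |a| + 3.71 / M) +
      volume (Metric.cthickening ((1 / √M) ^ (n + 1) / 5) (frontier A)) := by
  rcases alt hM haM hn hA with h | h
  · exact h1.trans (h.trans (add_le_add_right (vol_hnbd_thick _ _).1 _))
  · exact h2.trans (h.trans (add_le_add_right (vol_hnbd_thick _ _).2 _))

/-- the exponential lower bound -/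
theorem length {a M : ℝ} (hM : 16 ≤ M) (haM : |a| = M ^ 2) {A : Set T2}
    (hA : S a ⁻¹' A = A) {η : ℝ} (h1 : ENNReal.ofReal η ≤ volume A)
    (h2 : ENNReal.ofReal η ≤ volume Aᶜ) :
    ENNReal.ofReal (|a| ^ ((η * |a| - 5 * M) / 12)) ≤
      1 + 2 * Measure.hausdorffMeasure 1 (frontier A) := by
  have hM0 : 0 < M := by linarith
  have ha0 : 0 < |a| := by rw [haM]; positivity
  have ha1 : 1 < |a| := by rw [haM]; nlinarith
  have hla : 0 < log |a| := Real.log_pos ha1
  have hs0 : 0 < √M := Real.sqrt_pos.2 hM0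
  by_cases htop : Measure.hausdorffMeasure 1 (frontier A) = (⊤ : ℝ≥0∞)
  · rw [htop]
    have : (1:ℝ≥0∞) + 2 * ⊤ = ⊤ := by
      rw [ENNReal.mul_top (by norm_num)]
      simp
    rw [this]
    exact le_top
  · set ℓ : ℝ := (Measure.hausdorffMeasure 1 (frontier A)).toReal with hℓ
    have hℓ0 : 0 ≤ ℓ := ENNReal.toReal_nonneg
    have hℓe : Measure.hausdorffMeasure 1 (frontier A) = ENNReal.ofReal ℓ :=
      (ENNReal.ofReal_toReal htop).symm
    set g : ℝ := log (1 + 2 * ℓ) with hg
    have hg0 : 0 ≤ g := Real.log_nonneg (by linarith)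
    set k : ℕ := ⌈4 * g / log |a|⌉₊ with hk
    have hk1 : 4 * g / log |a| ≤ k := Nat.le_ceil _
    have hk2 : (k:ℝ) < 4 * g / log |a| + 1 := Nat.ceil_lt_add_one (by positivity)
    have h3 := alt_len hM haM (n := k + 1) (by omega) hA h1 h2
    rw [hℓe, ← ENNReal.ofReal_mul (by positivity), ← ENNReal.ofReal_add (by positivity)
      (by positivity), ENNReal.ofReal_le_ofReal_iff (by positivity)] at h3
    -- the last term
    have hlogM : log |a| = 2 * log M := by rw [haM, Real.log_pow]; push_cast; ring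
    have hlog : log √M = log |a| / 4 := by rw [Real.log_sqrt hM0.le, hlogM]; ring
    have h4 : 1 + 2 * ℓ ≤ √M ^ k := by
      rw [← Real.log_le_log_iff (by positivity) (by positivity), Real.log_pow, hlog, ← hg]
      rw [div_le_iff₀ hla] at hk1
      linarith
    have hsq : √M ^ 2 = M := Real.sq_sqrt hM0.le
    have h5 : 4 * ((1 / √M) ^ (k + 1 + 1) / 5) * ℓ ≤ 0.4 / M := by
      have e : (1 / √M) ^ (k + 1 + 1) = (1 / √M ^ k) * (1 / M) := by
        rw [div_pow, one_pow, pow_add, pow_add, pow_one, mul_assoc, ← pow_two, hsq]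
        field_simp
      rw [e]
      have h6 : (1 / √M ^ k) * (2 * ℓ) ≤ 1 := by
        rw [one_div, ← div_eq_inv_mul, div_le_one (by positivity)]
        linarith
      have e2 : 4 * ((1 / √M ^ k) * (1 / M) / 5) * ℓ = ((1 / √M ^ k) * (2 * ℓ)) * (0.4 / M) := by
        ring
      rw [e2]
      exact mul_le_of_le_one_left (by positivity) h6
    have h6 : η ≤ 3 * ((k + 1 : ℕ) : ℝ) / |a| + 3.71 / M + 0.4 / M := by linarith
    push_cast at h6
    have h7 : η * |a| ≤ 3 * (k + 1) + 4.11 * M := by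
      have h8 := mul_le_mul_of_nonneg_right h6 ha0.le
      have e : (3 * ((k:ℝ) + 1) / |a| + 3.71 / M + 0.4 / M) * |a| = 3 * (k + 1) + 4.11 * M := by
        have e3 : (3 * ((k:ℝ) + 1) / |a| + 3.71 / M + 0.4 / M) * |a| =
          3 * (k + 1) * (|a| / |a|) + 4.11 * (|a| / M) := by ring
        rw [e3, div_self ha0.ne', haM]
        field_simp
      rw [e] at h8
      exact h8
    have h8 : (η * |a| - 5 * M) / 12 * log |a| ≤ g := by
      have h9 : (η * |a| - 5 * M) / 12 ≤ g / log |a| := by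
        have : 4 * g / log |a| = 4 * (g / log |a|) := by ring
        linarith
      rwa [le_div_iff₀ hla] at h9
    have h9 : |a| ^ ((η * |a| - 5 * M) / 12) ≤ 1 + 2 * ℓ := by
      rw [Real.rpow_def_of_pos ha0, ← Real.exp_log (show (0:ℝ) < 1 + 2 * ℓ by positivity)]
      apply Real.exp_le_exp.2
      rw [mul_comm]
      exact h8
    rw [hℓe]
    have e1 : (1:ℝ≥0∞) = ENNReal.ofReal 1 := by norm_num
    have e2 : (2:ℝ≥0∞) = ENNReal.ofReal 2 := by norm_num
    rw [e1, e2, ← ENNReal.ofReal_mul (by norm_num), ← ENNReal.ofReal_add (by norm_num)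
      (by positivity)]
    exact ENNReal.ofReal_le_ofReal h9

/-- finite-scale mixing -/
theorem mixing {a M : ℝ} (hM : 16 ≤ M) (haM : |a| = M ^ 2) {n m : ℕ} (hn : 1 ≤ n) (hm : 1 ≤ m)
    {p q : T2} (hp : p ∉ bad a M n) (hq : Prod.swap q ∉ bad a M m) :
    ∃ p' q' : T2, dist p p' ≤ (1 / √M) ^ (n + 1) / 5 ∧ dist q q' ≤ (1 / √M) ^ (m + 1) / 5 ∧
      (S a)^[n + m] p' = q' := by
  have hseg : ∀ {r r' t s : ℝ} {x : T2}, r ≤ r' → x ∈ seg r t s →
      dist ((t : UnitAddCircle), (s : UnitAddCircle)) x ≤ r' := by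
    rintro r r' t s x hr ⟨u, hu, rfl⟩
    rw [Prod.dist_eq]
    simp only [dist_self]
    have h1 : dist (t : UnitAddCircle) (u : UnitAddCircle) ≤ r' := by
      rw [dist_eq_norm, ← AddCircle.coe_sub]
      refine (norm_coe_le _).trans ?_
      rw [abs_sub_comm]
      exact hu.trans hr
    exact max_le h1 (dist_nonneg.trans h1)
  unfold bad at hp hq
  rw [mem_union, not_or] at hp hq
  obtain ⟨p1, p2⟩ := p
  obtain ⟨q1, q2⟩ := q
  induction p1 using QuotientAddGroup.induction_on with
  | H t =>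
    induction p2 using QuotientAddGroup.induction_on with
    | H s =>
      induction q1 using QuotientAddGroup.induction_on with
      | H s' =>
        induction q2 using QuotientAddGroup.induction_on with
        | H t' =>
          obtain ⟨h1, h2⟩ := good_point hM haM hn hp.1 hp.2
          obtain ⟨h3, h4⟩ := good_point (t := t') (s := s') hM haM hm hq.1 hq.2
          have c1 := curve (bs_ge hM n) h1
          have c2 := curve (bs_ge hM m) h3
          have c3 : HasCurve (Prod.swap ⁻¹' ((Si a)^[m] '' (Prod.swap ''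
              seg (rem (bs a M s' t' m) m 1) t' s'))) := by
            refine c2.mono ?_
            rintro _ ⟨x, hx, rfl⟩
            refine ⟨Prod.swap x, ⟨x, hx, rfl⟩, ?_⟩
            rw [swap_S_iter]
          obtain ⟨z, ⟨x, hx, hxz⟩, ⟨_, ⟨y, hy, rfl⟩, hyz⟩⟩ := meet c1 c3
          refine ⟨x, Prod.swap y, hseg h2 hx, ?_, ?_⟩
          · have h5 := hseg h4 hy
            rw [Prod.dist_eq] at h5 ⊢
            rw [max_comm]
            exact h5
          · rw [add_comm, iterate_add_apply, hxz, ← hyz, S_iter_Si]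

end Pool.Agent.Y332.SM
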