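import Pool.Agent.Y332.SM.Meet

set_option autoImplicit false

/-!
# Measure estimates
-/

namespace Pool.Agent.Y332.SM

open Real MeasureTheory Function Set Filter Topology
open Pool.Agent.TH705.SM
open scoped ENNReal

theorem L_per (a : ℝ) : Periodic (L a) 1 := fun x => by simpa using L_period a x 1

/-- `|L|` as a function on the circle -/
noncomputable def Lc (a : ℝ) : UnitAddCircle → ℝ := (L_per a).lift

theorem Lc_coe (a x : ℝ) : Lc a (x : UnitAddCircle) = L a x := (L_per a).lift_coe x

theorem Lc_cont (a : ℝ) : Continuous (Lc a) := lift_cont (L_per a) (L_cont a)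

/-- small values of `L` -/
theorem vol_small {a : ℝ} (ha : 0 < |a|) {k : ℝ} (hk : 0 ≤ k) :
    volume {x : UnitAddCircle | |Lc a x| ≤ k} ≤ ENNReal.ofReal ((k + 2) / (2 * π * |a|)) := by
  have hpi := pi_pos
  set η : ℝ := (k + 2) / (2 * π * |a|) with hη
  have hη0 : 0 < η := by positivity
  set A : Set ℝ := Set.Icc (1 / 4 - η / 4) (1 / 4 + η / 4) ∪ Set.Icc (3 / 4 - η / 4) (3 / 4 + η / 4)
    with hA
  have hvol : volume A ≤ ENNReal.ofReal η := by
    refine (measure_union_le _ _).trans ?_
    rw [Real.volume_Icc, Real.volume_Icc, ← ENNReal.ofReal_add (by linarith) (by linarith)]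
    apply ENNReal.ofReal_le_ofReal
    linarith
  have hmeas : MeasurableSet {x : UnitAddCircle | |Lc a x| ≤ k} :=
    (isClosed_le (Lc_cont a).abs continuous_const).measurableSet
  have hmp := UnitAddCircle.measurePreserving_mk 0
  rw [← hmp.measure_preimage hmeas.nullMeasurableSet, Measure.restrict_apply
    (hmp.measurable hmeas)]
  refine (measure_mono ?_).trans hvol
  rintro x ⟨hx, hx1, hx2⟩
  rw [zero_add] at hx2
  have hx' : |Lc a (x : UnitAddCircle)| ≤ k := hx
  rw [Lc_coe] at hx'
  have h3 : |cos (2 * π * x)| ≤ η := by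
    rw [hη, le_div_iff₀ (by positivity)]
    have h3 : |cos (2 * π * x)| * (2 * π * |a|) = |L a x - 2| := by
      unfold L
      rw [add_sub_cancel_left, abs_mul, abs_mul, abs_of_pos (by positivity : 0 < 2 * π)]
      ring
    rw [h3]
    have := abs_sub (L a x) 2
    rw [abs_of_pos (by norm_num : (0:ℝ) < 2)] at this
    linarith
  rcases le_total x (1 / 2) with hx2' | hx2'
  · left
    have h4 : |2 * π * (x - 1 / 4)| ≤ π / 2 := by
      rw [abs_le]
      constructor <;> nlinarith
    have h5 := mul_abs_le_abs_sin h4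
    have h6 : |sin (2 * π * (x - 1 / 4))| = |cos (2 * π * x)| := by
      have : 2 * π * (x - 1 / 4) = -(π / 2 - 2 * π * x) := by ring
      rw [this, sin_neg, sin_pi_div_two_sub, abs_neg]
    rw [h6, abs_mul, abs_of_pos (by positivity : 0 < 2 * π)] at h5
    have h7 : 4 * |x - 1 / 4| ≤ |cos (2 * π * x)| := by
      have e : 2 / π * (2 * π * |x - 1 / 4|) = 4 * |x - 1 / 4| := by
        field_simp
        ring
      rw [← e]
      exact h5
    have h8 : |x - 1 / 4| ≤ η / 4 := by linarith
    rw [abs_le] at h8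
    exact ⟨by linarith, by linarith⟩
  · right
    have h4 : |2 * π * (x - 3 / 4)| ≤ π / 2 := by
      rw [abs_le]
      constructor <;> nlinarith
    have h5 := mul_abs_le_abs_sin h4
    have h6 : |sin (2 * π * (x - 3 / 4))| = |cos (2 * π * x)| := by
      have : 2 * π * (x - 3 / 4) = 2 * π * x + π / 2 - 2 * π := by ring
      rw [this, sin_sub_two_pi, sin_add_pi_div_two]
    rw [h6, abs_mul, abs_of_pos (by positivity : 0 < 2 * π)] at h5
    have h7 : 4 * |x - 3 / 4| ≤ |cos (2 * π * x)| := by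
      have e : 2 / π * (2 * π * |x - 3 / 4|) = 4 * |x - 3 / 4| := by
        field_simp
        ring
      rw [← e]
      exact h5
    have h8 : |x - 3 / 4| ≤ η / 4 := by linarith
    rw [abs_le] at h8
    exact ⟨by linarith, by linarith⟩

/-- thresholds -/
noncomputable def thr (M : ℝ) (n k : ℕ) : ℝ :=
  (if k = n then 10 * M else 16) + 4 * π ^ 2 * M ^ 2 * (1 / (5 * M) * (1 / 8) ^ (n - k))

/-- guaranteed expansion along the orbit of `(t, s)` -/
noncomputable def bs (a M s t : ℝ) (n k : ℕ) : ℝ :=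
  if k = n then 10 * M else if |L a (X a s k t)| ≤ 2 * M then 16 else M

theorem bs_ge {a M s t : ℝ} (hM : 16 ≤ M) (n k : ℕ) : 16 ≤ bs a M s t n k := by
  unfold bs
  split_ifs <;> linarith

theorem rem_le {a M s t : ℝ} (hM : 16 ≤ M) (n j : ℕ) : ∀ k, k + j = n →
    rem (bs a M s t n) n k ≤ 1 / (5 * M) * (1 / 8) ^ j := by
  induction j with
  | zero =>
    intro k hk
    rw [add_zero] at hk
    rw [hk, rem_succ _ le_rfl, rem_last, mul_one, pow_zero, mul_one]
    unfold bs
    rw [if_pos rfl]
    apply le_of_eq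
    field_simp
    norm_num
  | succ j ih =>
    intro k hk
    rw [rem_succ _ (show k ≤ n by omega)]
    have h1 := ih (k + 1) (by omega)
    have h2 := bs_ge (a := a) (s := s) (t := t) hM n k
    have h3 : 2 / bs a M s t n k ≤ 1 / 8 := by
      rw [div_le_div_iff₀ (by linarith) (by norm_num)]
      linarith
    have h4 := rem_pos (bs_ge (a := a) (s := s) (t := t) hM n) n (k + 1)
    calc 2 / bs a M s t n k * rem (bs a M s t n) n (k + 1) ≤
          1 / 8 * (1 / (5 * M) * (1 / 8) ^ j) := by
          apply mul_le_mul h3 h1 h4.le (by norm_num)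
      _ = _ := by rw [pow_succ]; ring

theorem strong_bs {a M s t : ℝ} (hM : 16 ≤ M) (haM : |a| = M ^ 2) {n : ℕ}
    (h : ∀ k, 1 ≤ k → k ≤ n → thr M n k < |L a (X a s k t)|) :
    Strong a (bs a M s t n) s n t := by
  intro k hk1 hk2
  have h1 := h k hk1 hk2
  have h2 := rem_le (a := a) (s := s) (t := t) hM n (n - k) k (by omega)
  have hM0 : 0 < M := by linarith
  have h3 : 4 * π ^ 2 * M ^ 2 * rem (bs a M s t n) n k ≤
      4 * π ^ 2 * M ^ 2 * (1 / (5 * M) * (1 / 8) ^ (n - k)) :=
    mul_le_mul_of_nonneg_left h2 (by positivity)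
  rw [haM]
  unfold thr at h1
  by_cases hkn : k = n
  · have e : bs a M s t n k = 10 * M := by
      unfold bs
      rw [if_pos hkn]
    rw [if_pos hkn] at h1
    rw [e]
    linarith
  · rw [if_neg hkn] at h1
    by_cases hL : |L a (X a s k t)| ≤ 2 * M
    · have e : bs a M s t n k = 16 := by
        unfold bs
        rw [if_neg hkn, if_pos hL]
      rw [e]
      linarith
    · have e : bs a M s t n k = M := by
        unfold bs
        rw [if_neg hkn, if_neg hL]
      rw [not_le] at hL
      have h4 : ((1:ℝ) / 8) ^ (n - k) ≤ 1 / 8 := by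
        have : ((1:ℝ) / 8) ^ (n - k) ≤ (1 / 8) ^ 1 :=
          pow_le_pow_of_le_one (by norm_num) (by norm_num) (by omega)
        simpa using this
      have h5 : 4 * π ^ 2 * M ^ 2 * (1 / (5 * M) * (1 / 8) ^ (n - k)) ≤
          4 * π ^ 2 * M ^ 2 * (1 / (5 * M) * (1 / 8)) := by
        apply mul_le_mul_of_nonneg_left _ (by positivity)
        exact mul_le_mul_of_nonneg_left h4 (by positivity)
      have h6 : 4 * π ^ 2 * M ^ 2 * (1 / (5 * M) * (1 / 8)) = π ^ 2 / 10 * M := by
        field_simp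
        norm_num
      have h7 : π ^ 2 / 10 < 1 := by
        have := pi_lt_d2
        have := pi_pos
        nlinarith
      have h8 : π ^ 2 / 10 * M < 1 * M := mul_lt_mul_of_pos_right h7 hM0
      rw [e]
      linarith

/-- the size of the initial segment -/
theorem rem_one {a M s t : ℝ} (hM : 16 ≤ M) {n : ℕ} (hn : 1 ≤ n)
    (h : 2 * ((Finset.Ico 1 n).filter fun k => |L a (X a s k t)| ≤ 2 * M).card ≤ n - 1) :
    rem (bs a M s t n) n 1 ≤ (1 / √M) ^ (n + 1) / 5 := by
  have hM0 : 0 < M := by linarith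
  set J := (Finset.Ico 1 n).filter fun k => |L a (X a s k t)| ≤ 2 * M with hJ
  set J' := (Finset.Ico 1 n).filter fun k => ¬ |L a (X a s k t)| ≤ 2 * M with hJ'
  have hcard : J.card + J'.card = n - 1 := by
    rw [hJ, hJ', Finset.card_filter_add_card_filter_not, Nat.card_Ico]
  have h1 : rem (bs a M s t n) n 1 = (∏ j ∈ Finset.Ico 1 n, (2 / bs a M s t n j)) *
      (1 / (5 * M)) := by
    unfold rem
    rw [Finset.prod_Ico_succ_top hn]
    congr 1
    unfold bs
    rw [if_pos rfl]
    field_simp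
    norm_num
  set PP := ∏ j ∈ Finset.Ico 1 n, (2 / bs a M s t n j) with hPP
  have hPP0 : 0 ≤ PP := Finset.prod_nonneg fun j _ => by
    have := bs_ge (a := a) (s := s) (t := t) hM n j
    positivity
  have h2 : PP ^ 2 = (1 / 64) ^ J.card * (4 / M ^ 2) ^ J'.card := by
    rw [hPP, ← Finset.prod_pow, ← Finset.prod_filter_mul_prod_filter_not (Finset.Ico 1 n)
      (fun k => |L a (X a s k t)| ≤ 2 * M), ← hJ, ← hJ']
    congr 1
    · rw [← Finset.prod_const]
      refine Finset.prod_congr rfl fun j hj => ?_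
      rw [hJ, Finset.mem_filter, Finset.mem_Ico] at hj
      unfold bs
      rw [if_neg (by omega), if_pos hj.2]
      norm_num
    · rw [← Finset.prod_const]
      refine Finset.prod_congr rfl fun j hj => ?_
      rw [hJ', Finset.mem_filter, Finset.mem_Ico] at hj
      unfold bs
      rw [if_neg (by omega), if_neg hj.2]
      rw [div_pow]
      norm_num
  have h3 : PP ^ 2 ≤ (1 / M) ^ (n - 1) := by
    rw [h2]
    obtain ⟨c, hc⟩ : ∃ c, J'.card = J.card + c := ⟨J'.card - J.card, by omega⟩
    have e1 : n - 1 = 2 * J.card + c := by omega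
    rw [hc, e1, pow_add, pow_add, pow_mul, ← mul_assoc, ← mul_pow]
    apply mul_le_mul
    · apply pow_le_pow_left₀ (by positivity)
      have : (1:ℝ) / 64 * (4 / M ^ 2) = (1 / M) ^ 2 * (1 / 16) := by
        field_simp
        norm_num
      rw [this]
      have : 0 ≤ (1 / M) ^ 2 := by positivity
      linarith
    · apply pow_le_pow_left₀ (by positivity)
      rw [div_le_div_iff₀ (by positivity) hM0]
      nlinarith
    · positivity
    · positivity
  have hs0 : 0 < √M := Real.sqrt_pos.2 hM0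
  have hsq : √M ^ 2 = M := Real.sq_sqrt hM0.le
  have h4 : PP ≤ (1 / √M) ^ (n - 1) := by
    apply le_of_sq_le_sq _ (by positivity)
    rw [← pow_mul, mul_comm (n - 1) 2, pow_mul, div_pow, hsq, one_pow]
    exact h3
  have h5 : (1 / √M) ^ (n + 1) / 5 = (1 / √M) ^ (n - 1) * (1 / (5 * M)) := by
    have e1 : n + 1 = (n - 1) + 2 := by omega
    rw [e1, pow_add, div_pow _ _ 2, hsq, one_pow]
    field_simp
  rw [h1, h5]
  exact mul_le_mul_of_nonneg_right h4 (by positivity)

/-- the points with a small derivative at one of the first `n` times -/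
def bad1 (a M : ℝ) (n : ℕ) : Set T2 :=
  {p | ∃ k, 1 ≤ k ∧ k ≤ n ∧ |Lc a (((S a)^[k - 1] p).1)| ≤ thr M n k}

/-- the points of `|L| ≤ 2 M` at the first time -/
def low (a M : ℝ) : Set T2 := {p | |Lc a p.1| ≤ 2 * M}

/-- the points with too many small derivatives -/
def bad2 (a M : ℝ) (n : ℕ) : Set T2 :=
  {p | (n:ℝ≥0∞) / 2 ≤ ∑ k ∈ Finset.Ico 1 n, (low a M).indicator 1 ((S a)^[k - 1] p)}

theorem X_of_iter {a t s : ℝ} {k : ℕ} (hk : 1 ≤ k) :
    ((S a)^[k - 1] ((t : UnitAddCircle), (s : UnitAddCircle))).1 = (X a s k t : UnitAddCircle) := by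
  obtain ⟨k, rfl⟩ := Nat.exists_eq_add_of_le' hk
  rw [iter_coe, Nat.add_sub_cancel]

theorem good_point {a M t s : ℝ} (hM : 16 ≤ M) (haM : |a| = M ^ 2) {n : ℕ} (hn : 1 ≤ n)
    (h1 : ((t : UnitAddCircle), (s : UnitAddCircle)) ∉ bad1 a M n)
    (h2 : ((t : UnitAddCircle), (s : UnitAddCircle)) ∉ bad2 a M n) :
    Strong a (bs a M s t n) s n t ∧ rem (bs a M s t n) n 1 ≤ (1 / √M) ^ (n + 1) / 5 := by
  constructor
  · apply strong_bs hM haM
    intro k hk1 hk2
    by_contra hcon
    rw [not_lt] at hcon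
    apply h1
    refine ⟨k, hk1, hk2, ?_⟩
    rw [X_of_iter hk1, Lc_coe]
    exact hcon
  · apply rem_one hM hn
    by_contra hcon
    rw [not_le] at hcon
    apply h2
    unfold bad2
    rw [Set.mem_ofPred_eq]
    have h3 : ∑ k ∈ Finset.Ico 1 n, (low a M).indicator (1 : T2 → ℝ≥0∞)
        ((S a)^[k - 1] ((t : UnitAddCircle), (s : UnitAddCircle))) =
        (((Finset.Ico 1 n).filter fun k => |L a (X a s k t)| ≤ 2 * M).card : ℝ≥0∞) := by
      rw [Finset.card_filter, Nat.cast_sum]
      refine Finset.sum_congr rfl fun k hk => ?_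
      rw [Finset.mem_Ico] at hk
      by_cases hL : |L a (X a s k t)| ≤ 2 * M
      · rw [if_pos hL, Set.indicator_of_mem]
        · simp
        · unfold low
          rw [Set.mem_ofPred_eq, X_of_iter hk.1, Lc_coe]
          exact hL
      · rw [if_neg hL, Set.indicator_of_notMem]
        · simp
        · unfold low
          rw [Set.mem_ofPred_eq, X_of_iter hk.1, Lc_coe]
          exact hL
    rw [h3]
    rw [ENNReal.div_le_iff (by norm_num) (by norm_num)]
    have h4 : n ≤ ((Finset.Ico 1 n).filter fun k => |L a (X a s k t)| ≤ 2 * M).card * 2 := by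
      omega
    exact_mod_cast h4

theorem geom_bound {q : ℝ} (hq0 : 0 ≤ q) (hq1 : q < 1) (n : ℕ) :
    ∑ k ∈ Finset.range n, q ^ (n - (k + 1)) ≤ 1 / (1 - q) := by
  have h1 : ∑ k ∈ Finset.range n, q ^ (n - (k + 1)) = ∑ k ∈ Finset.range n, q ^ k := by
    rw [← Finset.sum_range_reflect]
    refine Finset.sum_congr rfl fun k hk => ?_
    rw [Finset.mem_range] at hk
    congr 1
    omega
  rw [h1]
  have h3 : 0 < 1 - q := by linarith
  rw [le_div_iff₀ h3]
  have h4 : (∑ k ∈ Finset.range n, q ^ k) * (1 - q) = 1 - q ^ n := by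
    have := geom_sum_mul q n
    linarith
  rw [h4]
  have h5 : 0 ≤ q ^ n := pow_nonneg hq0 n
  linarith

theorem vol_level {a : ℝ} (ha : 0 < |a|) {c : ℝ} (hc : 0 ≤ c) (k : ℕ) :
    volume {p : T2 | |Lc a (((S a)^[k] p).1)| ≤ c} ≤ ENNReal.ofReal ((c + 2) / (2 * π * |a|)) := by
  have hm : MeasurableSet {x : UnitAddCircle | |Lc a x| ≤ c} :=
    (isClosed_le (Lc_cont a).abs continuous_const).measurableSet
  have h7 : MeasurePreserving (Prod.fst : T2 → UnitAddCircle)
      ((volume : Measure UnitAddCircle).prod volume) volume := measurePreserving_fst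
  have h8 : MeasurePreserving (fun p : T2 => ((S a)^[k] p).1) volume volume :=
    h7.comp (iter_mp a k)
  have h9 := h8.measure_preimage hm.nullMeasurableSet
  have h10 : {p : T2 | |Lc a (((S a)^[k] p).1)| ≤ c} =
    (fun p : T2 => ((S a)^[k] p).1) ⁻¹' {x : UnitAddCircle | |Lc a x| ≤ c} := rfl
  rw [h10, h9]
  exact vol_small ha hc

theorem thr_nonneg {M : ℝ} (hM : 16 ≤ M) (n k : ℕ) : 0 ≤ thr M n k := by
  have : 0 < M := by linarith
  unfold thr
  split_ifs <;> positivity

theorem vol_bad1 {a M : ℝ} (hM : 16 ≤ M) (haM : |a| = M ^ 2) (n : ℕ) :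
    volume (bad1 a M n) ≤ ENNReal.ofReal (3 * n / |a| + 3.03 / M) := by
  have hM0 : 0 < M := by linarith
  have ha : 0 < |a| := by rw [haM]; positivity
  have hpi := pi_pos
  have hpi3 := pi_gt_d2
  have hpi4 := pi_lt_d2
  have h1 : bad1 a M n ⊆ ⋃ k ∈ Finset.range n,
      {p : T2 | |Lc a (((S a)^[k] p).1)| ≤ thr M n (k + 1)} := by
    rintro p ⟨k, hk1, hk2, hk⟩
    simp only [mem_iUnion]
    refine ⟨k - 1, Finset.mem_range.2 (by omega), ?_⟩
    rw [Set.mem_ofPred_eq]
    rwa [Nat.sub_add_cancel hk1]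
  calc volume (bad1 a M n) ≤ _ := measure_mono h1
    _ ≤ ∑ k ∈ Finset.range n, volume {p : T2 | |Lc a (((S a)^[k] p).1)| ≤ thr M n (k + 1)} :=
      measure_biUnion_finset_le _ _
    _ ≤ ∑ k ∈ Finset.range n, ENNReal.ofReal ((thr M n (k + 1) + 2) / (2 * π * |a|)) :=
      Finset.sum_le_sum fun k _ => vol_level ha (thr_nonneg hM _ _) k
    _ = ENNReal.ofReal (∑ k ∈ Finset.range n, (thr M n (k + 1) + 2) / (2 * π * |a|)) := by
      rw [ENNReal.ofReal_sum_of_nonneg]
      intro k _
      have := thr_nonneg hM n (k + 1)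
      positivity
    _ ≤ _ := by
      apply ENNReal.ofReal_le_ofReal
      have h3 : ∀ k, (thr M n (k + 1) + 2) / (2 * π * |a|) =
          18 / (2 * π * |a|) + (if k + 1 = n then (10 * M - 16) / (2 * π * |a|) else 0) +
          2 * π / (5 * M) * (1 / 8) ^ (n - (k + 1)) := by
        intro k
        unfold thr
        rw [haM]
        split_ifs
        · field_simp
          ring
        · field_simp
          ring
      simp_rw [h3]
      rw [Finset.sum_add_distrib, Finset.sum_add_distrib, ← Finset.mul_sum, Finset.sum_const,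
        Finset.card_range, nsmul_eq_mul]
      have h4 := geom_bound (q := 1 / 8) (by norm_num) (by norm_num) n
      have h5 : ∑ k ∈ Finset.range n, (if k + 1 = n then (10 * M - 16) / (2 * π * |a|) else 0) ≤
          (10 * M - 16) / (2 * π * |a|) := by
        have h50 : 0 ≤ (10 * M - 16) / (2 * π * |a|) := div_nonneg (by linarith) (by positivity)
        rcases Nat.eq_zero_or_pos n with h0 | h0
        · rw [h0]
          simpa using h50
        · have h51 : ∀ k, k + 1 = n ↔ k = n - 1 := fun k => by omega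
          simp_rw [h51]
          rw [Finset.sum_ite_eq' (Finset.range n) (n - 1)]
          split_ifs
          · exact le_rfl
          · exact h50
      have h6 : 2 * π / (5 * M) * ∑ k ∈ Finset.range n, (1 / 8) ^ (n - (k + 1)) ≤
          1.4373 / M := by
        calc 2 * π / (5 * M) * ∑ k ∈ Finset.range n, (1 / 8) ^ (n - (k + 1)) ≤
              2 * π / (5 * M) * (1 / (1 - 1 / 8)) :=
              mul_le_mul_of_nonneg_left h4 (by positivity)
          _ = (16 * π / 35) / M := by
              field_simp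
              norm_num
          _ ≤ 1.4373 / M := by
              apply div_le_div_of_nonneg_right _ hM0.le
              have := pi_lt_d4
              linarith
      have h7 : (n:ℝ) * (18 / (2 * π * |a|)) ≤ 3 * n / |a| := by
        rw [← mul_div_assoc, div_le_div_iff₀ (by positivity) ha]
        have : 0 ≤ (n:ℝ) * |a| := by positivity
        nlinarith
      have h8 : (10 * M - 16) / (2 * π * |a|) ≤ 1.5925 / M := by
        rw [haM, div_le_div_iff₀ (by positivity) hM0]
        have : 0 < M ^ 2 := by positivity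
        nlinarith
      have h9 : (3.03:ℝ) / M = 1.4373 / M + 1.5925 / M + 0.0002 / M := by
        field_simp
        norm_num
      have h10 : 0 < 0.0002 / M := by positivity
      rw [h9]
      linarith

theorem vol_bad2 {a M : ℝ} (hM : 16 ≤ M) (haM : |a| = M ^ 2) {n : ℕ} (hn : 1 ≤ n) :
    volume (bad2 a M n) ≤ ENNReal.ofReal (0.68 / M) := by
  have hM0 : 0 < M := by linarith
  have ha : 0 < |a| := by rw [haM]; positivity
  have hpi := pi_pos
  have hpi3 := pi_gt_d2
  have hlow : MeasurableSet (low a M) := by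
    apply IsClosed.measurableSet
    exact isClosed_le ((Lc_cont a).comp continuous_fst).abs continuous_const
  have hmeas : ∀ k, Measurable (fun p : T2 => (low a M).indicator (1 : T2 → ℝ≥0∞)
      ((S a)^[k - 1] p)) := by
    intro k
    exact (measurable_one.indicator hlow).comp ((S_cont a).iterate (k - 1)).measurable
  have h1 : (n:ℝ≥0∞) / 2 * volume (bad2 a M n) ≤ ∫⁻ p : T2, ∑ k ∈ Finset.Ico 1 n,
      (low a M).indicator (1 : T2 → ℝ≥0∞) ((S a)^[k - 1] p) := by
    apply mul_meas_ge_le_lintegral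
    exact Finset.measurable_sum _ fun k _ => hmeas k
  rw [lintegral_finsetSum _ fun k _ => hmeas k] at h1
  have h2 : ∀ k, ∫⁻ p : T2, (low a M).indicator (1 : T2 → ℝ≥0∞) ((S a)^[k - 1] p) ≤
      ENNReal.ofReal ((2 * M + 2) / (2 * π * |a|)) := by
    intro k
    have h3 : ∀ p : T2, (low a M).indicator (1 : T2 → ℝ≥0∞) ((S a)^[k - 1] p) =
        ({p : T2 | |Lc a (((S a)^[k - 1] p).1)| ≤ 2 * M}).indicator 1 p := by
      intro p
      rfl
    simp_rw [h3]
    rw [lintegral_indicator_one₀]
    · exact vol_level ha (by positivity) _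
    · have : {p : T2 | |Lc a (((S a)^[k - 1] p).1)| ≤ 2 * M} = (S a)^[k - 1] ⁻¹' low a M := rfl
      rw [this]
      exact (((S_cont a).iterate (k - 1)).measurable hlow).nullMeasurableSet
  have h4 : (n:ℝ≥0∞) / 2 * volume (bad2 a M n) ≤
      n * ENNReal.ofReal ((2 * M + 2) / (2 * π * |a|)) := by
    refine h1.trans ((Finset.sum_le_sum fun k _ => h2 k).trans ?_)
    rw [Finset.sum_const, Nat.card_Ico, nsmul_eq_mul]
    gcongr
    omega
  have hn0 : (n:ℝ≥0∞) ≠ 0 := by
    simp only [ne_eq, Nat.cast_eq_zero]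
    omega
  have h5 : volume (bad2 a M n) ≤ 2 * ENNReal.ofReal ((2 * M + 2) / (2 * π * |a|)) := by
    have h6 : (n:ℝ≥0∞) * (2⁻¹ * volume (bad2 a M n)) ≤
        n * ENNReal.ofReal ((2 * M + 2) / (2 * π * |a|)) := by
      rw [← mul_assoc, ← div_eq_mul_inv]
      exact h4
    rw [ENNReal.mul_le_mul_iff_right hn0 (ENNReal.natCast_ne_top n)] at h6
    have h7 : volume (bad2 a M n) = 2 * (2⁻¹ * volume (bad2 a M n)) := by
      rw [← mul_assoc, ENNReal.mul_inv_cancel (by norm_num) (by norm_num), one_mul]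
    rw [h7]
    gcongr
  refine h5.trans ?_
  have e2 : (2:ℝ≥0∞) = ENNReal.ofReal 2 := by norm_num
  rw [e2, ← ENNReal.ofReal_mul (by norm_num)]
  apply ENNReal.ofReal_le_ofReal
  rw [haM, ← mul_div_assoc, div_le_div_iff₀ (by positivity) hM0]
  have : 0 < M ^ 2 := by positivity
  nlinarith

/-- the exceptional set of time `n` -/
def bad (a M : ℝ) (n : ℕ) : Set T2 := bad1 a M n ∪ bad2 a M n

theorem vol_bad {a M : ℝ} (hM : 16 ≤ M) (haM : |a| = M ^ 2) {n : ℕ} (hn : 1 ≤ n) :
    volume (bad a M n) ≤ ENNReal.ofReal (3 * n / |a| + 3.71 / M) := by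
  have hM0 : 0 < M := by linarith
  refine (measure_union_le _ _).trans ((add_le_add (vol_bad1 hM haM n)
    (vol_bad2 hM haM hn)).trans ?_)
  rw [← ENNReal.ofReal_add (by positivity) (by positivity)]
  apply ENNReal.ofReal_le_ofReal
  have : (3.71:ℝ) / M = 3.03 / M + 0.68 / M := by
    field_simp
    norm_num
  linarith

/-- points which can be moved into `F` horizontally by at most `r` -/
def hnbd (r : ℝ) (F : Set T2) : Set T2 :=
  {p | ∃ b : ℝ, |b| ≤ r ∧ (p.1 + (b : UnitAddCircle), p.2) ∈ F}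

theorem norm_coe_le (b : ℝ) : ‖(b : UnitAddCircle)‖ ≤ |b| := by
  rw [AddCircle.norm_eq]
  simp only [inv_one, one_mul, mul_one]
  have := round_le b 0
  simpa using this

theorem hnbd_sub (r : ℝ) (F : Set T2) : hnbd r F ⊆ Metric.cthickening r F := by
  rintro p ⟨b, hb, hp⟩
  refine Metric.mem_cthickening_of_dist_le _ _ _ _ hp ?_
  rw [Prod.dist_eq]
  simp only [dist_self]
  have h1 : dist p.1 (p.1 + (b : UnitAddCircle)) = ‖(b : UnitAddCircle)‖ := by
    rw [dist_eq_norm, sub_add_cancel_left, norm_neg]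
  rw [h1]
  exact max_le ((norm_coe_le b).trans hb) ((abs_nonneg b).trans hb)

/-- crossing-free segments stay inside -/
theorem no_front {V B : Set T2} (hV : IsPreconnected V) (hf : Disjoint V (frontier B)) {p : T2}
    (hp : p ∈ V) (hpB : p ∈ B) : V ⊆ B := by
  have h1 : V ⊆ interior B ∪ (closure B)ᶜ := by
    intro x hx
    by_cases h2 : x ∈ closure B
    · left
      by_contra h3
      exact Set.disjoint_left.1 hf hx ⟨h2, h3⟩
    · exact Or.inr h2
  have h4 : Disjoint (interior B) (closure B)ᶜ :=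
    Set.disjoint_left.2 fun x hx hx' => hx' (subset_closure (interior_subset hx))
  have h5 : (V ∩ interior B).Nonempty := by
    refine ⟨p, hp, ?_⟩
    rcases h1 hp with h | h
    · exact h
    · exact absurd (subset_closure hpB) h
  exact (hV.subset_left_of_subset_union isOpen_interior isClosed_closure.isOpen_compl h4 h1
    h5).trans interior_subset

theorem seg_sub {r t s : ℝ} {B : Set T2} (hr : 0 ≤ r)
    (hB : ((t : UnitAddCircle), (s : UnitAddCircle)) ∈ B)
    (hn : ((t : UnitAddCircle), (s : UnitAddCircle)) ∉ hnbd r (frontier B)) :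
    seg r t s ⊆ B := by
  have h1 : seg r t s = (fun u : ℝ => ((u : UnitAddCircle), (s : UnitAddCircle))) ''
      Icc (t - r) (t + r) := by
    ext p
    constructor
    · rintro ⟨u, hu, rfl⟩
      rw [abs_le] at hu
      exact ⟨u, ⟨by linarith, by linarith⟩, rfl⟩
    · rintro ⟨u, hu, rfl⟩
      refine ⟨u, ?_, rfl⟩
      rw [abs_le]
      constructor <;> linarith [hu.1, hu.2]
  have h2 : IsPreconnected (seg r t s) := by
    rw [h1]
    apply isPreconnected_Icc.image
    have : Continuous (fun u : ℝ => ((u : UnitAddCircle), (s : UnitAddCircle))) :=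
      (AddCircle.continuous_mk' 1).prodMk continuous_const
    exact this.continuousOn
  refine no_front h2 ?_ ⟨t, by simpa using hr, rfl⟩ hB
  rw [Set.disjoint_left]
  rintro p ⟨u, hu, rfl⟩ hp
  apply hn
  refine ⟨u - t, hu, ?_⟩
  rw [← AddCircle.coe_add]
  have : t + (u - t) = u := by ring
  rw [this]
  exact hp

/-- an invariant set with no full crossing is small -/
theorem vol_le {a M : ℝ} (hM : 16 ≤ M) (haM : |a| = M ^ 2) {n : ℕ} (hn : 1 ≤ n) {B : Set T2}
    (hB : S a ⁻¹' B = B) (hno : ¬ HasCurve B) : volume B ≤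
    ENNReal.ofReal (3 * n / |a| + 3.71 / M) +
      volume (hnbd ((1 / √M) ^ (n + 1) / 5) (frontier B)) := by
  have h1 : B ⊆ bad a M n ∪ hnbd ((1 / √M) ^ (n + 1) / 5) (frontier B) := by
    intro p hp
    by_contra hcon
    rw [mem_union, not_or] at hcon
    obtain ⟨hcon1, hcon2⟩ := hcon
    unfold bad at hcon1
    rw [mem_union, not_or] at hcon1
    obtain ⟨p1, p2⟩ := p
    induction p1 using QuotientAddGroup.induction_on with
    | H t =>
      induction p2 using QuotientAddGroup.induction_on with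
      | H s =>
        obtain ⟨h3, h4⟩ := good_point hM haM hn hcon1.1 hcon1.2
        have h5 := seg_sub (by positivity) hp hcon2
        refine hno (curve_inv (bs_ge hM n) h3 hB (subset_trans ?_ h5))
        rintro q ⟨u, hu, rfl⟩
        exact ⟨u, hu.trans h4, rfl⟩
  exact (measure_mono h1).trans ((measure_union_le _ _).trans
    (add_le_add_left (vol_bad hM haM hn) _))

theorem vol_hnbd_aux {r δ : ℝ} (hr : 0 ≤ r) (hδ : 0 ≤ δ) (V : Set T2)
    (hV : Metric.ediam V ≤ ENNReal.ofReal δ) :
    volume (hnbd r V) ≤ ENNReal.ofReal (4 * (r + δ)) * ⨆ _ : V.Nonempty, Metric.ediam V := by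
  rcases V.eq_empty_or_nonempty with h | ⟨c, hc⟩
  · have : hnbd r V = ∅ := by
      rw [h]
      ext p
      simp [hnbd]
    rw [this, measure_empty]
    exact zero_le
  · have hne : V.Nonempty := ⟨c, hc⟩
    rw [iSup_pos hne]
    have hfin : Metric.ediam V ≠ ⊤ := ne_top_of_le_ne_top ENNReal.ofReal_ne_top hV
    set d : ℝ := (Metric.ediam V).toReal with hd
    have hd0 : 0 ≤ d := ENNReal.toReal_nonneg
    have hdδ : d ≤ δ := ENNReal.toReal_le_of_le_ofReal hδ hV
    have hdd : Metric.ediam V = ENNReal.ofReal d := (ENNReal.ofReal_toReal hfin).symm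
    have hdist : ∀ x ∈ V, dist x c ≤ d := by
      intro x hx
      have h1 := Metric.edist_le_ediam_of_mem hx hc
      rw [hdd, edist_dist] at h1
      exact (ENNReal.ofReal_le_ofReal_iff hd0).1 h1
    have hsub : hnbd r V ⊆ Metric.closedBall c.1 (r + d) ×ˢ Metric.closedBall c.2 d := by
      rintro p ⟨b, hb, hp⟩
      have h1 := hdist _ hp
      rw [Prod.dist_eq] at h1
      have h2 := (le_max_left _ _).trans h1
      have h3 := (le_max_right _ _).trans h1
      refine ⟨?_, h3⟩
      rw [Metric.mem_closedBall]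
      have h4 : dist p.1 (p.1 + (b : UnitAddCircle)) ≤ r := by
        rw [dist_eq_norm, sub_add_cancel_left, norm_neg]
        exact (norm_coe_le b).trans hb
      exact (dist_triangle _ _ _).trans (add_le_add h4 h2)
    refine (measure_mono hsub).trans ?_
    rw [vol_T2, Measure.prod_prod, AddCircle.volume_closedBall, AddCircle.volume_closedBall, hdd,
      ← ENNReal.ofReal_mul (le_min zero_le_one (by positivity)), ← ENNReal.ofReal_mul
      (by positivity)]
    apply ENNReal.ofReal_le_ofReal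
    have h5 : min 1 (2 * (r + d)) ≤ 2 * (r + δ) := (min_le_right _ _).trans (by linarith)
    have h6 : min 1 (2 * d) ≤ 2 * d := min_le_right _ _
    have h7 : 0 ≤ min 1 (2 * d) := le_min zero_le_one (by positivity)
    calc min 1 (2 * (r + d)) * min 1 (2 * d) ≤ 2 * (r + δ) * (2 * d) :=
          mul_le_mul h5 h6 h7 (by positivity)
      _ = _ := by ring

/-- the horizontal neighbourhood of a set of finite length -/
theorem vol_hnbd {r : ℝ} (hr : 0 < r) (F : Set T2) :
    volume (hnbd r F) ≤ ENNReal.ofReal (4 * r) * Measure.hausdorffMeasure 1 F := by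
  have key : ∀ δ : ℝ, 0 < δ →
      volume (hnbd r F) ≤ ENNReal.ofReal (4 * (r + δ)) * Measure.hausdorffMeasure 1 F := by
    intro δ hδ
    set c : ℝ≥0∞ := ENNReal.ofReal (4 * (r + δ)) with hc
    have hc0 : c ≠ 0 := by
      rw [hc]
      exact (ENNReal.ofReal_pos.2 (by positivity)).ne'
    have hct : c ≠ ⊤ := ENNReal.ofReal_ne_top
    have h1 : volume (hnbd r F) / c ≤ Measure.hausdorffMeasure 1 F := by
      rw [Measure.hausdorffMeasure_apply]
      refine le_trans ?_ (le_iSup₂ (f := fun (ρ : ℝ≥0∞) (_ : 0 < ρ) =>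
        ⨅ (t : ℕ → Set T2) (_ : F ⊆ ⋃ n, t n) (_ : ∀ n, Metric.ediam (t n) ≤ ρ),
          ∑' n, ⨆ _ : (t n).Nonempty, Metric.ediam (t n) ^ (1:ℝ)) (ENNReal.ofReal δ)
          (ENNReal.ofReal_pos.2 hδ))
      refine le_iInf fun t => le_iInf fun ht => le_iInf fun htd => ?_
      rw [ENNReal.div_le_iff hc0 hct]
      have h2 : hnbd r F ⊆ ⋃ n, hnbd r (t n) := by
        rintro p ⟨b, hb, hp⟩
        obtain ⟨n, hn⟩ := mem_iUnion.1 (ht hp)
        exact mem_iUnion.2 ⟨n, b, hb, hn⟩
      calc volume (hnbd r F) ≤ volume (⋃ n, hnbd r (t n)) := measure_mono h2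
        _ ≤ ∑' n, volume (hnbd r (t n)) := measure_iUnion_le _
        _ ≤ ∑' n, c * ⨆ _ : (t n).Nonempty, Metric.ediam (t n) ^ (1:ℝ) := by
          apply ENNReal.tsum_le_tsum
          intro n
          simp_rw [ENNReal.rpow_one]
          exact vol_hnbd_aux hr.le hδ.le _ (htd n)
        _ = _ := by rw [ENNReal.tsum_mul_left, mul_comm]
    rw [ENNReal.div_le_iff hc0 hct, mul_comm] at h1
    exact h1
  by_cases htop : Measure.hausdorffMeasure 1 F = (⊤ : ℝ≥0∞)
  · rw [htop, ENNReal.mul_top (ENNReal.ofReal_pos.2 (by positivity)).ne']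
    exact le_top
  · have h1 : Tendsto (fun δ : ℝ => ENNReal.ofReal (4 * (r + δ)) * Measure.hausdorffMeasure 1 F)
        (𝓝[>] 0) (𝓝 (ENNReal.ofReal (4 * (r + 0)) * Measure.hausdorffMeasure 1 F)) := by
      apply ENNReal.Tendsto.mul_const _ (Or.inr htop)
      apply ENNReal.tendsto_ofReal
      have : Continuous (fun δ : ℝ => 4 * (r + δ)) := by fun_prop
      exact (this.tendsto 0).mono_left nhdsWithin_le_nhds
    rw [add_zero] at h1
    refine ge_of_tendsto h1 ?_
    filter_upwards [self_mem_nhdsWithin] with δ hδ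
    exact key δ hδ

end Pool.Agent.Y332.SM
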