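import Pool.Agent.Y332.SM.Cross

set_option autoImplicit false

/-!
# Crossing curves meet
-/

namespace Pool.Agent.Y332.SM

open Real MeasureTheory Function Set Filter Topology
open Pool.Agent.TH705.SM

/-- a curve in `B` which is a graph over an interval of length two, of small slope -/
def HasCurve (B : Set T2) : Prop := ∃ (α : ℝ) (w : ℝ → ℝ),
  (∀ x ∈ Icc (α - 1) (α + 1), ((x : UnitAddCircle), (w x : UnitAddCircle)) ∈ B) ∧
  ∀ x ∈ Icc (α - 1) (α + 1), ∀ y ∈ Icc (α - 1) (α + 1), |w x - w y| ≤ 1 / 8 * |x - y|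

theorem iter_mem {a : ℝ} {B : Set T2} (hB : S a ⁻¹' B = B) {p : T2} (hp : p ∈ B) (n : ℕ) :
    (S a)^[n] p ∈ B := by
  induction n with
  | zero => exact hp
  | succ n ih =>
    rw [iterate_succ_apply']
    rw [← hB] at ih
    exact ih

/-- the horizontal segment of half-length `r` around `(t, s)` -/
def seg (r t s : ℝ) : Set T2 := {p | ∃ u : ℝ, |u - t| ≤ r ∧
  ((u : UnitAddCircle), (s : UnitAddCircle)) = p}

theorem HasCurve.mono {B C : Set T2} (h : HasCurve B) (hBC : B ⊆ C) : HasCurve C := by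
  obtain ⟨α, w, h1, h2⟩ := h
  exact ⟨α, w, fun x hx => hBC (h1 x hx), h2⟩

/-- the image of a short segment contains a full crossing -/
theorem curve {a : ℝ} {b : ℕ → ℝ} (hb : ∀ k, 16 ≤ b k) {s t : ℝ} {n : ℕ}
    (hs : Strong a b s n t) : HasCurve ((S a)^[n] '' seg (rem b n 1) t s) := by
  have hbn := hb n
  obtain ⟨c, hc1, hc2, hc3, hc4⟩ := left hb hs
  obtain ⟨d, hd1, hd2, hd3, hd4⟩ := right hb hs
  have hcd : c ≤ d := hc2.trans hd1
  have hgood : ∀ v ∈ Icc c d, GoodB a b s n v := by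
    intro v hv
    rcases le_total v t with h | h
    · exact hc3 v ⟨hv.1, h⟩
    · exact hd3 v ⟨h, hv.2⟩
  set Y : ℝ → ℝ := X a s (n + 1) with hY
  have hne : Y c ≠ Y d := by
    intro he
    have h1 := time_incr hb hcd hgood
    rw [← hY, he, sub_self, abs_zero, mul_zero] at h1
    have h2 : d = c := by
      have := abs_nonneg (d - c)
      have h3 : |d - c| = 0 := le_antisymm h1 this
      rw [abs_eq_zero] at h3
      linarith
    have h3 : t = c := by linarith
    rw [h3, sub_self, abs_zero] at hc4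
    norm_num at hc4
  have hsub : Icc (Y t - 1) (Y t + 1) ⊆ Y '' Icc c d := by
    have h1 := intermediate_value_uIcc (a := c) (b := d) (f := Y)
      (Xt_cont a s (n + 1)).continuousOn
    rw [uIcc_of_le hcd] at h1
    refine subset_trans ?_ h1
    have hc5 : Y c - Y t = 1 ∨ Y c - Y t = -1 := (abs_eq zero_le_one).1 hc4
    have hd5 : Y d - Y t = 1 ∨ Y d - Y t = -1 := (abs_eq zero_le_one).1 hd4
    rcases hc5 with h5 | h5 <;> rcases hd5 with h6 | h6
    · exact absurd (by linarith) hne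
    · have e1 : Y c = Y t + 1 := by linarith
      have e2 : Y d = Y t - 1 := by linarith
      rw [e1, e2, uIcc_of_ge (by linarith)]
    · have e1 : Y c = Y t - 1 := by linarith
      have e2 : Y d = Y t + 1 := by linarith
      rw [e1, e2, uIcc_of_le (by linarith)]
    · exact absurd (by linarith) hne
  have hsub' : ∀ x ∈ Icc (Y t - 1) (Y t + 1), ∃ u, u ∈ Icc c d ∧ Y u = x :=
    fun x hx => hsub hx
  choose! τ hτ using hsub'
  refine ⟨Y t, fun x => X a s n (τ x), ?_, ?_⟩
  · intro x hx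
    have h1 := (hτ x hx).1
    have h2 : ((τ x : UnitAddCircle), (s : UnitAddCircle)) ∈ seg (rem b n 1) t s := by
      refine ⟨τ x, ?_, rfl⟩
      rw [abs_le]
      constructor <;> linarith [h1.1, h1.2]
    refine ⟨_, h2, ?_⟩
    rw [iter_coe]
    have h4 : X a s (n + 1) (τ x) = x := (hτ x hx).2
    rw [h4]
  · have key : ∀ x ∈ Icc (Y t - 1) (Y t + 1), ∀ y ∈ Icc (Y t - 1) (Y t + 1), τ x ≤ τ y →
        |X a s n (τ y) - X a s n (τ x)| ≤ 1 / 8 * |y - x| := by
      intro x hx y hy hxy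
      have h1 := X_incr hb hxy (fun v hv => hgood v ⟨(hτ x hx).1.1.trans hv.1,
        hv.2.trans (hτ y hy).1.2⟩) (k := n) (by omega)
      have h4 : X a s (n + 1) (τ x) = x := (hτ x hx).2
      have h5 : X a s (n + 1) (τ y) = y := (hτ y hy).2
      rw [h4, h5, rem_succ b le_rfl, rem_last, mul_one] at h1
      refine h1.trans (mul_le_mul_of_nonneg_right ?_ (abs_nonneg _))
      rw [div_le_div_iff₀ (by linarith) (by norm_num)]
      linarith
    intro x hx y hy
    rcases le_total (τ x) (τ y) with h | h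
    · rw [abs_sub_comm, abs_sub_comm x y]
      exact key x hx y hy h
    · exact key y hy x hx h

/-- the same in an invariant set -/
theorem curve_inv {a : ℝ} {b : ℕ → ℝ} (hb : ∀ k, 16 ≤ b k) {s t : ℝ} {n : ℕ}
    (hs : Strong a b s n t) {B : Set T2}
    (hB : S a ⁻¹' B = B) (hseg : seg (rem b n 1) t s ⊆ B) : HasCurve B := by
  refine (curve hb hs).mono ?_
  rintro _ ⟨p, hp, rfl⟩
  exact iter_mem hB (hseg hp) n

theorem coe_sub_int (x : ℝ) (i : ℤ) : ((x - i : ℝ) : UnitAddCircle) = (x : UnitAddCircle) := by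
  rw [AddCircle.coe_sub]
  have : ((i : ℝ) : UnitAddCircle) = 0 := by
    rw [AddCircle.coe_eq_zero_iff]
    exact ⟨i, by simp⟩
  rw [this, sub_zero]

/-- a horizontal curve in `B` and a vertical curve in `C` meet -/
theorem meet {B C : Set T2} (h1 : HasCurve B) (h2 : HasCurve (Prod.swap ⁻¹' C)) :
    (B ∩ C).Nonempty := by
  obtain ⟨α, w, hw1, hw2⟩ := h1
  obtain ⟨β, v, hv1, hv2⟩ := h2
  set i : ℤ := round (v β - α) with hi
  set j : ℤ := round (β - w α) with hj
  have hi1 : |v β - α - i| ≤ 1 / 2 := abs_sub_round _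
  have hj1 : |β - w α - j| ≤ 1 / 2 := abs_sub_round _
  rw [abs_le] at hi1 hj1
  have hβ : β ∈ Icc (β - 1) (β + 1) := ⟨by linarith, by linarith⟩
  have hα : α ∈ Icc (α - 1) (α + 1) := ⟨by linarith, by linarith⟩
  have hx : ∀ y ∈ Icc (β - 1) (β + 1), |v y - i - α| ≤ 5 / 8 := by
    intro y hy
    have h3 := hv2 y hy β hβ
    have h4 : |y - β| ≤ 1 := by
      rw [abs_le]
      constructor <;> linarith [hy.1, hy.2]
    have h5 : |v y - v β| ≤ 1 / 8 := by linarith
    rw [abs_le] at h5 ⊢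
    constructor <;> linarith
  have hx' : ∀ y ∈ Icc (β - 1) (β + 1), v y - i ∈ Icc (α - 1) (α + 1) := by
    intro y hy
    have := hx y hy
    rw [abs_le] at this
    constructor <;> linarith
  set g : ℝ → ℝ := fun y => w (v y - i) + j - y with hg
  have hgc : ContinuousOn g (Icc (β - 1) (β + 1)) := by
    have hlip : LipschitzOnWith 2 g (Icc (β - 1) (β + 1)) := by
      apply LipschitzOnWith.of_dist_le_mul
      intro x hx1 y hy1
      rw [Real.dist_eq, Real.dist_eq]
      have h3 := hw2 _ (hx' x hx1) _ (hx' y hy1)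
      have h4 := hv2 x hx1 y hy1
      have e1 : v x - i - (v y - i) = v x - v y := by ring
      rw [e1] at h3
      have e2 : g x - g y = (w (v x - i) - w (v y - i)) - (x - y) := by
        simp only [hg]; ring
      rw [e2]
      have h5 := abs_sub (w (v x - i) - w (v y - i)) (x - y)
      have h6 := abs_nonneg (x - y)
      have e3 : ((2 : NNReal) : ℝ) = 2 := rfl
      rw [e3]
      linarith
    exact hlip.continuousOn
  have hgb : ∀ y ∈ Icc (β - 1) (β + 1), |g y - (β - y)| ≤ 5 / 8 := by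
    intro y hy
    have h3 := hw2 _ (hx' y hy) α hα
    have h4 := hx y hy
    have h5 : |w (v y - i) - w α| ≤ 1 / 8 * (5 / 8) := by linarith
    have e2 : g y - (β - y) = (w (v y - i) - w α) - (β - w α - j) := by
      simp only [hg]; ring
    rw [e2]
    rw [abs_le] at h5 ⊢
    constructor <;> linarith
  have hg1 := hgb (β - 1) ⟨le_rfl, by linarith⟩
  have hg2 := hgb (β + 1) ⟨by linarith, le_rfl⟩
  rw [abs_le] at hg1 hg2
  have h0 : (0:ℝ) ∈ Icc (g (β + 1)) (g (β - 1)) := ⟨by linarith, by linarith⟩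
  obtain ⟨y, hy, hy0⟩ := intermediate_value_Icc' (by linarith : β - 1 ≤ β + 1) hgc h0
  have h3 := hw1 _ (hx' y hy)
  have h4 := hv1 y hy
  have e1 : w (v y - i) = y - j := by
    have : w (v y - i) + j - y = 0 := hy0
    linarith
  rw [e1, coe_sub_int, coe_sub_int] at h3
  exact ⟨_, h3, h4⟩

theorem S_Si (a : ℝ) (p : T2) : S a (Si a p) = p := by
  unfold Si S
  simp

theorem S_iter_Si (a : ℝ) (n : ℕ) (p : T2) : (S a)^[n] ((Si a)^[n] p) = p := by
  have h : LeftInverse (S a) (Si a) := S_Si a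
  exact h.iterate n p

theorem swap_S (a : ℝ) (p : T2) : Prod.swap (S a p) = Si a (Prod.swap p) := by
  unfold Si S
  simp

theorem swap_S_iter (a : ℝ) (n : ℕ) (p : T2) :
    Prod.swap ((S a)^[n] p) = (Si a)^[n] (Prod.swap p) := by
  have h : Semiconj (Prod.swap : T2 → T2) (S a) (Si a) := swap_S a
  exact h.iterate_right n p

/-- the reversed set is invariant -/
theorem swap_inv {a : ℝ} {B : Set T2} (hB : S a ⁻¹' B = B) :
    S a ⁻¹' (Prod.swap ⁻¹' Bᶜ) = Prod.swap ⁻¹' Bᶜ := by
  ext p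
  simp only [mem_preimage, mem_compl_iff]
  rw [swap_S, not_iff_not]
  constructor
  · intro h
    rw [← S_Si a (Prod.swap p)]
    rw [← hB] at h
    exact h
  · intro h
    rw [← S_Si a (Prod.swap p)] at h
    rw [← hB]
    exact h

end Pool.Agent.Y332.SM
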